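import Pool.Agent.ER.Defs

/-!
# Affine polynomial projection: the decision problems

A polynomial with integer coefficients in `n` variables is given by the list of its nonzero
coefficients, each together with the vector of the `n` exponents of its monomial.
-/

namespace Pool.Agent.N586.AP

/-- The polynomial in `n` variables with the terms `(c, e)`: `c` is a coefficient and `e` the vector of
exponents. -/
noncomputable def poly (n : ℕ) (p : List (ℤ × List ℕ)) : MvPolynomial (Fin n) ℤ :=
  (p.map fun t => MvPolynomial.C t.1 * ∏ i : Fin n, MvPolynomial.X i ^ t.2.getD i 0).sum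

/-- The list is the list of the nonzero coefficients of a polynomial in `n` variables: the
coefficients are nonzero, the exponent vectors have length `n` and are different from each other. -/
def IsCode (n : ℕ) (p : List (ℤ × List ℕ)) : Prop :=
  (p.map Prod.snd).Nodup ∧ ∀ t ∈ p, t.1 ≠ 0 ∧ t.2.length = n

/-- The decision problem **affine polynomial projection**: the input consists of a number `n` and two
polynomials `f` and `g` with integer coefficients in `n` variables; the question is whether there are
a real `n × n` matrix `A` and a vector `b` with `f(x) = g(Ax + b)` for all real `x`. -/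
def AffineProjection (q : ℕ × List (ℤ × List ℕ) × List (ℤ × List ℕ)) : Prop :=
  IsCode q.1 q.2.1 ∧ IsCode q.1 q.2.2 ∧
    ∃ (A : Matrix (Fin q.1) (Fin q.1) ℝ) (b : Fin q.1 → ℝ), ∀ x : Fin q.1 → ℝ,
      MvPolynomial.aeval x (poly q.1 q.2.1) = MvPolynomial.aeval (A.mulVec x + b) (poly q.1 q.2.2)

/-- The restriction of the problem to `f = 0` and polynomials `g` of degree at most four. -/
def AffineProjectionZero (q : ℕ × List (ℤ × List ℕ) × List (ℤ × List ℕ)) : Prop :=
  poly q.1 q.2.1 = 0 ∧ (poly q.1 q.2.2).totalDegree ≤ 4 ∧ AffineProjection q

/-- The restriction of the problem to `f = x₀⁴` and polynomials `g` of degree at most four. -/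
def AffineProjectionQuartic (q : ℕ × List (ℤ × List ℕ) × List (ℤ × List ℕ)) : Prop :=
  (∃ h : 0 < q.1, poly q.1 q.2.1 = MvPolynomial.X ⟨0, h⟩ ^ 4) ∧
    (poly q.1 q.2.2).totalDegree ≤ 4 ∧ AffineProjection q

end Pool.Agent.N586.AP
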