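import Pool.Agent.N586.AP.Defs
import Pool.Agent.H532R2.IntPoly
import Pool.Agent.R544.Util2
import Pool.Agent.H78R3.TSV.Time
import Pool.Agent.ER.Hard

/-!
# Affine polynomial projection is `∃ℝ`-hard
-/

namespace Pool.Agent.NPC.N586AP

open Finset Pool.Agent.NPC Pool.Agent.NPC.ER Pool.Agent.N586.AP
open Pool.Agent.H78R3.TSV (ix ix_lt)

/-- A raw term: the coefficient is the difference of the first two numbers. -/
abbrev RT := ℕ × ℕ × List ℕ

/-- The exponent vector of a product of variables. -/
def expo (n : ℕ) (l : List ℕ) : List ℕ := (List.range n).map fun t => l.count t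

/-- The square of the polynomial of a constraint. -/
def sq (V : List ℕ) : ER.Con → List RT
  | ER.Con.one i => [(1, 0, [ix V i, ix V i]), (0, 2, [ix V i]), (1, 0, [])]
  | ER.Con.add i j k => [(1, 0, [ix V i, ix V i]), (1, 0, [ix V j, ix V j]),
      (1, 0, [ix V k, ix V k]), (2, 0, [ix V i, ix V j]), (0, 2, [ix V i, ix V k]),
      (0, 2, [ix V j, ix V k])]
  | ER.Con.mul i j k => [(1, 0, [ix V i, ix V i, ix V j, ix V j]),
      (0, 2, [ix V i, ix V j, ix V k]), (1, 0, [ix V k, ix V k])]

/-- The number of variables. -/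
def nv (S : List ER.Con) : ℕ := (svars S).length + 1

/-- All terms, the monomials being lists of variables. -/
def raw0 (S : List ER.Con) : List RT := S.flatMap (sq (svars S))

/-- The coefficient of a monomial. -/
def coef (R : List RT) (m : List ℕ) : ℤ :=
  (((R.filter fun t => decide (t.2.2 = m)).map fun t => t.1).sum : ℕ) -
    (((R.filter fun t => decide (t.2.2 = m)).map fun t => t.2.1).sum : ℕ)

/-- Collecting the terms. -/
def canon (R : List RT) : List (ℤ × List ℕ) :=
  ((R.map fun t => t.2.2).dedup.map fun m => (coef R m, m)).filter fun t => !decide (t.1 = 0)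

/-- Passing to exponent vectors. -/
def toE (n : ℕ) (R : List RT) : List RT := R.map fun t => (t.1, t.2.1, expo n t.2.2)

theorem isCode_canon {n : ℕ} {R : List RT} (h : ∀ t ∈ R, t.2.2.length = n) :
    IsCode n (canon R) := by
  constructor
  · have h1 : (((R.map fun t => t.2.2).dedup.map fun m => (coef R m, m)).map Prod.snd).Nodup := by
      rw [List.map_map]
      have : (Prod.snd ∘ fun m => (coef R m, m)) = id := rfl
      rw [this, List.map_id]
      exact List.nodup_dedup _
    exact h1.sublist ((List.filter_sublist).map _)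
  · intro t ht
    unfold canon at ht
    rw [List.mem_filter, List.mem_map] at ht
    obtain ⟨⟨m, hm, rfl⟩, h2⟩ := ht
    rw [List.mem_dedup, List.mem_map] at hm
    obtain ⟨t, ht, rfl⟩ := hm
    refine ⟨by simpa using h2, h t ht⟩

theorem coef_eq (R : List RT) (m : List ℕ) :
    ((coef R m : ℤ) : ℝ) = (R.map fun t => if t.2.2 = m then ((t.1 : ℝ) - t.2.1) else 0).sum := by
  unfold coef
  push_cast
  induction R with
  | nil => simp
  | cons t R ih =>
    by_cases h : t.2.2 = m
    · simp only [List.filter_cons, h, decide_true, if_true, List.map_cons, List.sum_cons]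
      rw [← ih]
      push_cast
      ring
    · simp only [List.filter_cons, h, decide_false, if_false, List.map_cons, List.sum_cons,
        Bool.false_eq_true]
      rw [← ih]
      ring

theorem sum_swap (φ : List ℕ → ℝ) (s : Finset (List ℕ)) : ∀ (R : List RT) (_ : ∀ t ∈ R, t.2.2 ∈ s),
    ∑ m ∈ s, (R.map fun t => if t.2.2 = m then ((t.1 : ℝ) - t.2.1) else 0).sum * φ m =
      (R.map fun t => ((t.1 : ℝ) - t.2.1) * φ t.2.2).sum := by
  intro R
  induction R with
  | nil => intro _; simp
  | cons t R ih =>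
    intro h
    have h1 := ih fun t ht => h t (List.mem_cons_of_mem _ ht)
    simp only [List.map_cons, List.sum_cons, add_mul, Finset.sum_add_distrib]
    rw [h1]
    congr 1
    simp only [ite_mul, zero_mul]
    rw [Finset.sum_ite_eq]
    rw [if_pos (h t List.mem_cons_self)]

theorem canon_sum (R : List RT) (φ : List ℕ → ℝ) :
    ((canon R).map fun t => (t.1 : ℝ) * φ t.2).sum =
      (R.map fun t => ((t.1 : ℝ) - t.2.1) * φ t.2.2).sum := by
  have h0 : ∀ l : List (ℤ × List ℕ), ((l.filter fun t => !decide (t.1 = 0)).map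
      fun t => (t.1 : ℝ) * φ t.2).sum = (l.map fun t => (t.1 : ℝ) * φ t.2).sum := by
    intro l
    induction l with
    | nil => rfl
    | cons t l ih =>
      by_cases h : t.1 = 0
      · simp [h, ih]
      · simp [h, ih]
  unfold canon
  rw [h0, List.map_map]
  have h1 : (List.map ((fun t : ℤ × List ℕ => (t.1 : ℝ) * φ t.2) ∘ fun m => (coef R m, m))
      (R.map fun t => t.2.2).dedup).sum =
      ∑ m ∈ (R.map fun t => t.2.2).toFinset, ((coef R m : ℤ) : ℝ) * φ m := by
    rw [← List.sum_toFinset _ (List.nodup_dedup _)]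
    refine Finset.sum_congr ?_ fun _ _ => rfl
    ext m
    simp
  rw [h1]
  simp_rw [coef_eq]
  exact sum_swap φ _ R fun t ht => by
    rw [List.mem_toFinset, List.mem_map]
    exact ⟨t, ht, rfl⟩

/-- The value of a monomial. -/
noncomputable def mon {n : ℕ} (x : Fin n → ℝ) (m : List ℕ) : ℝ := ∏ i : Fin n, x i ^ m.getD i 0

theorem aeval_poly {n : ℕ} (p : List (ℤ × List ℕ)) (x : Fin n → ℝ) :
    MvPolynomial.aeval x (poly n p) = (p.map fun t => (t.1 : ℝ) * mon x t.2).sum := by
  unfold poly
  induction p with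
  | nil => simp
  | cons t p ih =>
    rw [List.map_cons, List.sum_cons, map_add, ih, List.map_cons, List.sum_cons]
    congr 1
    rw [map_mul, map_prod]
    simp [mon]

/-- Extension of a point. -/
def ext {n : ℕ} (x : Fin n → ℝ) (i : ℕ) : ℝ := if h : i < n then x ⟨i, h⟩ else 0

theorem mon_expo {n : ℕ} (x : Fin n → ℝ) {l : List ℕ} (h : ∀ i ∈ l, i < n) :
    mon x (expo n l) = (l.map (ext x)).prod := by
  unfold mon
  have h1 : ∀ i : Fin n, x i ^ (expo n l).getD i 0 = (fun j : ℕ => ext x j ^ l.count j) i := by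
    intro i
    have : (expo n l).getD i 0 = l.count (i : ℕ) := by
      unfold expo
      rw [List.getD_eq_getElem?_getD, List.getElem?_map, List.getElem?_range i.2]
      rfl
    rw [this]
    simp [ext]
  rw [Finset.prod_congr rfl fun i _ => h1 i, Fin.prod_univ_eq_prod_range (fun j => ext x j ^ l.count j) n,
    Finset.prod_list_map_count]
  refine (Finset.prod_subset ?_ ?_).symm
  · intro i hi
    exact Finset.mem_range.2 (h i (List.mem_toFinset.1 hi))
  · intro i _ hi
    rw [List.count_eq_zero_of_not_mem (fun h' => hi (List.mem_toFinset.2 h')), pow_zero]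

theorem mon_sum_toE {n : ℕ} (x : Fin n → ℝ) (R : List RT) (h : ∀ t ∈ R, ∀ i ∈ t.2.2, i < n) :
    ((toE n R).map fun t => ((t.1 : ℝ) - t.2.1) * mon x t.2.2).sum =
      (R.map fun t => ((t.1 : ℝ) - t.2.1) * (t.2.2.map (ext x)).prod).sum := by
  unfold toE
  rw [List.map_map]
  congr 1
  refine List.map_congr_left fun t ht => ?_
  show ((t.1 : ℝ) - t.2.1) * mon x (expo n t.2.2) = _
  rw [mon_expo x (h t ht)]

/-- The error of a constraint. -/
def cerr (v : ℕ → ℝ) : ER.Con → ℝ
  | ER.Con.one i => v i - 1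
  | ER.Con.add i j k => v i + v j - v k
  | ER.Con.mul i j k => v i * v j - v k

theorem cerr_eq_zero (v : ℕ → ℝ) (c : ER.Con) : cerr v c = 0 ↔ c.Holds v := by
  cases c <;> simp [cerr, ER.Con.Holds, sub_eq_zero]

theorem sum_sq (V : List ℕ) (y : ℕ → ℝ) (c : ER.Con) :
    ((sq V c).map fun t => ((t.1 : ℝ) - t.2.1) * (t.2.2.map y).prod).sum =
      cerr (fun i => y (ix V i)) c ^ 2 := by
  cases c with
  | one i => simp [sq, cerr]; ring
  | add i j k => simp [sq, cerr]; ring
  | mul i j k => simp [sq, cerr]; ring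

theorem sum_raw (V : List ℕ) (y : ℕ → ℝ) (S : List ER.Con) :
    ((S.flatMap (sq V)).map fun t => ((t.1 : ℝ) - t.2.1) * (t.2.2.map y).prod).sum =
      (S.map fun c => cerr (fun i => y (ix V i)) c ^ 2).sum := by
  induction S with
  | nil => rfl
  | cons c S ih =>
    rw [List.flatMap_cons, List.map_append, List.sum_append, ih, sum_sq, List.map_cons,
      List.sum_cons]

theorem sq_vars {S : List ER.Con} {c : ER.Con} (hc : c ∈ S) {t : RT} (ht : t ∈ sq (svars S) c) :
    (∀ i ∈ t.2.2, i < nv S) ∧ t.2.2.length ≤ 4 := by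
  unfold nv
  cases c with
  | one i =>
    have h1 := ix_lt hc (i := i) (by simp [Con.vars])
    simp only [sq, List.mem_cons, List.not_mem_nil, or_false] at ht
    rcases ht with rfl | rfl | rfl <;> refine ⟨fun r hr => ?_, by simp⟩ <;>
      simp only [List.mem_cons, List.not_mem_nil, or_false] at hr <;> omega
  | add i j k =>
    have h1 := ix_lt hc (i := i) (by simp [Con.vars])
    have h2 := ix_lt hc (i := j) (by simp [Con.vars])
    have h3 := ix_lt hc (i := k) (by simp [Con.vars])
    simp only [sq, List.mem_cons, List.not_mem_nil, or_false] at ht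
    rcases ht with rfl | rfl | rfl | rfl | rfl | rfl <;> refine ⟨fun r hr => ?_, by simp⟩ <;>
      simp only [List.mem_cons, List.not_mem_nil, or_false] at hr <;> omega
  | mul i j k =>
    have h1 := ix_lt hc (i := i) (by simp [Con.vars])
    have h2 := ix_lt hc (i := j) (by simp [Con.vars])
    have h3 := ix_lt hc (i := k) (by simp [Con.vars])
    simp only [sq, List.mem_cons, List.not_mem_nil, or_false] at ht
    rcases ht with rfl | rfl | rfl <;> refine ⟨fun r hr => ?_, by simp⟩ <;>
      simp only [List.mem_cons, List.not_mem_nil, or_false] at hr <;> omega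

theorem raw0_vars {S : List ER.Con} {t : RT} (ht : t ∈ raw0 S) :
    (∀ i ∈ t.2.2, i < nv S) ∧ t.2.2.length ≤ 4 := by
  unfold raw0 at ht
  rw [List.mem_flatMap] at ht
  obtain ⟨c, hc, ht⟩ := ht
  exact sq_vars hc ht

/-- The term `x₀⁴`. -/
def t0 : RT := (1, 0, [0, 0, 0, 0])

/-- The instance with `f = 0`. -/
def inst0 (S : List ER.Con) : ℕ × List (ℤ × List ℕ) × List (ℤ × List ℕ) :=
  (nv S, [], canon (toE (nv S) (raw0 S)))

/-- The instance with `f = x₀⁴`. -/
def inst4 (S : List ER.Con) : ℕ × List (ℤ × List ℕ) × List (ℤ × List ℕ) :=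
  (nv S, [(1, expo (nv S) [0, 0, 0, 0])], canon (toE (nv S) (t0 :: raw0 S)))

theorem toE_length {n : ℕ} {R : List RT} : ∀ t ∈ toE n R, t.2.2.length = n := by
  intro t ht
  unfold toE at ht
  rw [List.mem_map] at ht
  obtain ⟨t, _, rfl⟩ := ht
  simp [expo]

/-- The sum of the squares. -/
noncomputable def G (S : List ER.Con) (y : ℕ → ℝ) : ℝ :=
  (S.map fun c => cerr (fun i => y (ix (svars S) i)) c ^ 2).sum

theorem G_nonneg (S : List ER.Con) (y : ℕ → ℝ) : 0 ≤ G S y := by
  unfold G
  apply List.sum_nonneg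
  intro a ha
  rw [List.mem_map] at ha
  obtain ⟨c, _, rfl⟩ := ha
  positivity

theorem G_eq_zero {S : List ER.Con} {y : ℕ → ℝ} (h : G S y = 0) : Sat S := by
  refine ⟨fun i => y (ix (svars S) i), fun c hc => ?_⟩
  rw [← cerr_eq_zero]
  unfold G at h
  have key : ∀ l : List ER.Con, (l.map fun c => cerr (fun i => y (ix (svars S) i)) c ^ 2).sum = 0 →
      ∀ c ∈ l, cerr (fun i => y (ix (svars S) i)) c = 0 := by
    intro l
    induction l with
    | nil => intro _ c hc; exact absurd hc List.not_mem_nil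
    | cons d l ih =>
      intro h
      rw [List.map_cons, List.sum_cons] at h
      have h1 : 0 ≤ (l.map fun c => cerr (fun i => y (ix (svars S) i)) c ^ 2).sum := by
        apply List.sum_nonneg
        intro a ha
        rw [List.mem_map] at ha
        obtain ⟨c, _, rfl⟩ := ha
        positivity
      have h2 := sq_nonneg (cerr (fun i => y (ix (svars S) i)) d)
      intro c hc
      rcases List.mem_cons.1 hc with rfl | hc
      · exact pow_eq_zero_iff (two_ne_zero) |>.1 (by linarith)
      · exact ih (by linarith) c hc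
  exact key S h c hc

theorem G_of_sat {S : List ER.Con} {v : ℕ → ℝ} (hv : SysHolds v S) :
    G S (fun j => v ((svars S).getD (j - 1) 0)) = 0 := by
  unfold G
  have : ∀ c ∈ S, cerr (fun i => (fun j => v ((svars S).getD (j - 1) 0)) (ix (svars S) i)) c ^ 2
      = 0 := by
    intro c hc
    have h1 : cerr (fun i => (fun j => v ((svars S).getD (j - 1) 0)) (ix (svars S) i)) c = 0 := by
      rw [cerr_eq_zero]
      refine (Con.holds_congr fun i hi => ?_).1 (hv c hc)
      have hm := mem_svars hc hi
      have hlt := List.idxOf_lt_length_of_mem hm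
      simp only [ix, Nat.add_sub_cancel]
      rw [List.getD_eq_getElem _ _ hlt, List.getElem_idxOf hlt]
    rw [h1]; ring
  rw [List.map_congr_left this]
  simp

theorem G_congr {S : List ER.Con} {y y' : ℕ → ℝ} (h : ∀ i, 1 ≤ i → i < nv S → y i = y' i) :
    G S y = G S y' := by
  unfold G
  congr 1
  refine List.map_congr_left fun c hc => ?_
  have : ∀ i ∈ c.vars, y (ix (svars S) i) = y' (ix (svars S) i) := fun i hi =>
    h _ (by unfold ix; omega) (ix_lt hc hi)
  cases c <;> simp [Con.vars] at this <;> simp [cerr, this]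

theorem aeval_g0 (S : List ER.Con) (x : Fin (nv S) → ℝ) :
    MvPolynomial.aeval x (poly (nv S) (canon (toE (nv S) (raw0 S)))) = G S (ext x) := by
  rw [aeval_poly, canon_sum, mon_sum_toE x _ fun t ht => (raw0_vars ht).1]
  exact sum_raw _ _ _

theorem aeval_g4 (S : List ER.Con) (x : Fin (nv S) → ℝ) :
    MvPolynomial.aeval x (poly (nv S) (canon (toE (nv S) (t0 :: raw0 S)))) =
      ext x 0 ^ 4 + G S (ext x) := by
  rw [aeval_poly, canon_sum, mon_sum_toE x _ fun t ht => ?_]
  · rw [List.map_cons, List.sum_cons]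
    congr 1
    · simp [t0]; ring
    · exact sum_raw _ _ _
  · rcases List.mem_cons.1 ht with rfl | ht
    · intro i hi
      simp only [t0, List.mem_cons, List.not_mem_nil, or_false] at hi
      unfold nv
      omega
    · exact (raw0_vars ht).1

theorem aeval_f4 (S : List ER.Con) (x : Fin (nv S) → ℝ) :
    MvPolynomial.aeval x (poly (nv S) [(1, expo (nv S) [0, 0, 0, 0])]) = ext x 0 ^ 4 := by
  rw [aeval_poly]
  simp only [List.map_cons, List.map_nil, List.sum_cons, List.sum_nil]
  rw [mon_expo x (by intro i hi; simp at hi; unfold nv; omega)]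
  simp; ring

theorem poly_f4 (S : List ER.Con) (h : 0 < nv S) :
    poly (nv S) [(1, expo (nv S) [0, 0, 0, 0])] = MvPolynomial.X ⟨0, h⟩ ^ 4 := by
  unfold poly
  simp only [List.map_cons, List.map_nil, List.sum_cons, List.sum_nil, add_zero, map_one, one_mul]
  rw [Finset.prod_eq_single (⟨0, h⟩ : Fin (nv S))]
  · congr 1
    unfold expo
    rw [List.getD_eq_getElem?_getD, List.getElem?_map, List.getElem?_range h]
    rfl
  · intro i _ hi
    have h0 : (i : ℕ) ≠ 0 := fun h' => hi (Fin.ext h')
    have : (expo (nv S) [0, 0, 0, 0]).getD i 0 = 0 := by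
      unfold expo
      rw [List.getD_eq_getElem?_getD, List.getElem?_map, List.getElem?_range i.2]
      simp [h0.symm]
    rw [this, pow_zero]
  · intro h'; exact absurd (Finset.mem_univ _) h'

theorem totalDegree_poly_le {n d : ℕ} (p : List (ℤ × List ℕ))
    (h : ∀ t ∈ p, ∑ i : Fin n, t.2.getD i 0 ≤ d) : (poly n p).totalDegree ≤ d := by
  unfold poly
  induction p with
  | nil => simp
  | cons t p ih =>
    rw [List.map_cons, List.sum_cons]
    refine (MvPolynomial.totalDegree_add _ _).trans (max_le ?_ ?_)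
    · refine (MvPolynomial.totalDegree_mul _ _).trans ?_
      rw [MvPolynomial.totalDegree_C, zero_add]
      refine (MvPolynomial.totalDegree_finsetProd _ _).trans ?_
      refine le_trans (Finset.sum_le_sum fun i _ => ?_) (h t List.mem_cons_self)
      refine (MvPolynomial.totalDegree_pow _ _).trans ?_
      rw [MvPolynomial.totalDegree_X, mul_one]
    · exact ih fun t ht => h t (List.mem_cons_of_mem _ ht)

theorem sum_expo (n : ℕ) (l : List ℕ) : ∑ i : Fin n, (expo n l).getD i 0 ≤ l.length := by
  have h1 : ∀ i : Fin n, (expo n l).getD i 0 = (fun j : ℕ => l.count j) i := by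
    intro i
    unfold expo
    rw [List.getD_eq_getElem?_getD, List.getElem?_map, List.getElem?_range i.2]
    rfl
  rw [Finset.sum_congr rfl fun i _ => h1 i, Fin.sum_univ_eq_sum_range (fun j => l.count j) n]
  induction l with
  | nil => simp
  | cons a l ih =>
    have h2 : ∀ j, (a :: l).count j = l.count j + if a = j then 1 else 0 := by
      intro j
      rw [List.count_cons]
      simp
    have ih' : ∑ j ∈ Finset.range n, l.count j ≤ l.length := by
      refine ih fun i => ?_
      unfold expo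
      rw [List.getD_eq_getElem?_getD, List.getElem?_map, List.getElem?_range i.2]
      rfl
    simp_rw [h2, Finset.sum_add_distrib, Finset.sum_ite_eq]
    rw [List.length_cons]
    split_ifs <;> omega

theorem degree_canon {n : ℕ} {R : List RT} (h : ∀ t ∈ R, t.2.2.length ≤ 4) :
    (poly n (canon (toE n R))).totalDegree ≤ 4 := by
  refine totalDegree_poly_le _ fun t ht => ?_
  unfold canon at ht
  rw [List.mem_filter, List.mem_map] at ht
  obtain ⟨⟨m, hm, rfl⟩, _⟩ := ht
  rw [List.mem_dedup, List.mem_map] at hm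
  obtain ⟨t, ht, rfl⟩ := hm
  unfold toE at ht
  rw [List.mem_map] at ht
  obtain ⟨t, ht, rfl⟩ := ht
  exact (sum_expo n t.2.2).trans (h t ht)

/-- The core of the problem. -/
def Core (n : ℕ) (f g : List (ℤ × List ℕ)) : Prop :=
  ∃ (A : Matrix (Fin n) (Fin n) ℝ) (b : Fin n → ℝ), ∀ x : Fin n → ℝ,
    MvPolynomial.aeval x (poly n f) = MvPolynomial.aeval (A.mulVec x + b) (poly n g)

theorem core0 (S : List ER.Con) : Sat S ↔ Core (nv S) [] (canon (toE (nv S) (raw0 S))) := by
  constructor
  · rintro ⟨v, hv⟩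
    refine ⟨0, fun j => v ((svars S).getD ((j : ℕ) - 1) 0), fun x => ?_⟩
    rw [aeval_g0, aeval_poly]
    simp only [List.map_nil, List.sum_nil]
    rw [← G_of_sat hv]
    refine G_congr fun i _ hi => ?_
    simp [ext, hi]
  · rintro ⟨A, b, h⟩
    have h2 := h 0
    rw [aeval_g0, aeval_poly] at h2
    simp only [List.map_nil, List.sum_nil] at h2
    exact G_eq_zero h2.symm

theorem core4 (S : List ER.Con) : Sat S ↔ Core (nv S) [(1, expo (nv S) [0, 0, 0, 0])]
    (canon (toE (nv S) (t0 :: raw0 S))) := by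
  have h0 : 0 < nv S := by unfold nv; omega
  constructor
  · rintro ⟨v, hv⟩
    refine ⟨Matrix.diagonal fun j => if (j : ℕ) = 0 then 1 else 0,
      fun j => if (j : ℕ) = 0 then 0 else v ((svars S).getD ((j : ℕ) - 1) 0), fun x => ?_⟩
    rw [aeval_g4, aeval_f4]
    have e1 : G S (ext (Matrix.mulVec (Matrix.diagonal fun j : Fin (nv S) =>
        if (j : ℕ) = 0 then (1 : ℝ) else 0) x +
        fun j : Fin (nv S) => if (j : ℕ) = 0 then 0 else v ((svars S).getD ((j : ℕ) - 1) 0))) = 0 := by
      refine Eq.trans (G_congr fun i hi1 hi => ?_) (G_of_sat hv)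
      have : i ≠ 0 := by omega
      simp [ext, hi, this, Matrix.mulVec_diagonal]
    rw [e1]
    simp [ext, h0, Matrix.mulVec_diagonal]
  · rintro ⟨A, b, h⟩
    have h2 := h 0
    rw [aeval_g4, aeval_f4] at h2
    have h3 : ext (0 : Fin (nv S) → ℝ) 0 = 0 := by simp [ext]
    rw [h3] at h2
    have h4 := G_nonneg S (ext (A.mulVec 0 + b))
    have h5 : 0 ≤ ext (A.mulVec (0 : Fin (nv S) → ℝ) + b) 0 ^ 4 := by positivity
    refine G_eq_zero (y := ext (A.mulVec 0 + b)) ?_
    have h6 : (0 : ℝ) ^ 4 = 0 := by norm_num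
    rw [h6] at h2
    linarith

theorem ap0_iff (S : List ER.Con) : Sat S ↔ AffineProjection (inst0 S) := by
  have hc : IsCode (nv S) [] := ⟨by simp, by simp⟩
  have hc' : IsCode (nv S) (canon (toE (nv S) (raw0 S))) := isCode_canon toE_length
  rw [core0]
  exact ⟨fun h => ⟨hc, hc', h⟩, fun h => h.2.2⟩

theorem ap4_iff (S : List ER.Con) : Sat S ↔ AffineProjection (inst4 S) := by
  have hc : IsCode (nv S) [(1, expo (nv S) [0, 0, 0, 0])] := ⟨by simp, by simp [expo]⟩
  have hc' : IsCode (nv S) (canon (toE (nv S) (t0 :: raw0 S))) := isCode_canon toE_length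
  rw [core4]
  exact ⟨fun h => ⟨hc, hc', h⟩, fun h => h.2.2⟩

theorem zero_iff (S : List ER.Con) : Sat S ↔ AffineProjectionZero (inst0 S) := by
  unfold AffineProjectionZero
  rw [ap0_iff]
  constructor
  · intro h
    exact ⟨rfl, degree_canon fun t ht => (raw0_vars ht).2, h⟩
  · exact fun h => h.2.2

theorem quartic_iff (S : List ER.Con) : Sat S ↔ AffineProjectionQuartic (inst4 S) := by
  unfold AffineProjectionQuartic
  rw [ap4_iff]
  constructor
  · intro h
    refine ⟨⟨by show 0 < nv S; unfold nv; omega, poly_f4 S _⟩, degree_canon fun t ht => ?_, h⟩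
    rcases List.mem_cons.1 ht with rfl | ht
    · simp [t0]
    · exact (raw0_vars ht).2
  · exact fun h => h.2.2

section

variable {α : Type} [TEnc α]

theorem sq_eq (V : List ℕ) (c : ER.Con) : sq V c =
    if c.code.1 = 0 then [(1, 0, [ix V c.code.2.1, ix V c.code.2.1]), (0, 2, [ix V c.code.2.1]),
      (1, 0, [])]
    else if c.code.1 = 1 then [(1, 0, [ix V c.code.2.1, ix V c.code.2.1]),
      (1, 0, [ix V c.code.2.2.1, ix V c.code.2.2.1]),
      (1, 0, [ix V c.code.2.2.2, ix V c.code.2.2.2]), (2, 0, [ix V c.code.2.1, ix V c.code.2.2.1]),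
      (0, 2, [ix V c.code.2.1, ix V c.code.2.2.2]), (0, 2, [ix V c.code.2.2.1, ix V c.code.2.2.2])]
    else [(1, 0, [ix V c.code.2.1, ix V c.code.2.1, ix V c.code.2.2.1, ix V c.code.2.2.1]),
      (0, 2, [ix V c.code.2.1, ix V c.code.2.2.1, ix V c.code.2.2.2]),
      (1, 0, [ix V c.code.2.2.2, ix V c.code.2.2.2])] := by
  cases c <;> rfl

theorem poly_l1 {a : α → ℕ} (ha : Poly a) : Poly (fun x => [a x]) := Poly.cons ha (Poly.const _)

theorem poly_l2 {a b : α → ℕ} (ha : Poly a) (hb : Poly b) : Poly (fun x => [a x, b x]) :=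
  Poly.cons ha (poly_l1 hb)

theorem poly_sq {V : α → List ℕ} {c : α → ER.Con} (hV : Poly V) (hc : Poly c) :
    Poly (fun a => sq (V a) (c a)) := by
  have h0 : Poly (fun a => (c a).code) := poly_con_code hc
  have i1 := H78TSV.poly_ix hV (Poly.fst (Poly.snd h0))
  have i2 := H78TSV.poly_ix hV (Poly.fst (Poly.snd (Poly.snd h0)))
  have i3 := H78TSV.poly_ix hV (Poly.snd (Poly.snd (Poly.snd h0)))
  have mk : ∀ (p q : ℕ) {l : α → List ℕ}, Poly l → Poly (fun a => ((p, q, l a) : RT)) :=
    fun p q l hl => Poly.pair (Poly.const p) (Poly.pair (Poly.const q) hl)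
  refine (Poly.ite (Poly.decide_eq (Poly.fst h0) (Poly.const 0))
    (Poly.cons (mk 1 0 (poly_l2 i1 i1)) (Poly.cons (mk 0 2 (poly_l1 i1)) (Poly.const _)))
    (Poly.ite (Poly.decide_eq (Poly.fst h0) (Poly.const 1))
      (Poly.cons (mk 1 0 (poly_l2 i1 i1)) (Poly.cons (mk 1 0 (poly_l2 i2 i2))
        (Poly.cons (mk 1 0 (poly_l2 i3 i3)) (Poly.cons (mk 2 0 (poly_l2 i1 i2))
          (Poly.cons (mk 0 2 (poly_l2 i1 i3)) (Poly.cons (mk 0 2 (poly_l2 i2 i3))
            (Poly.const _)))))))
      (Poly.cons (mk 1 0 (Poly.cons i1 (Poly.cons i1 (poly_l2 i2 i2))))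
        (Poly.cons (mk 0 2 (Poly.cons i1 (poly_l2 i2 i3)))
          (Poly.cons (mk 1 0 (poly_l2 i3 i3)) (Poly.const _)))))).congr
    fun a => (sq_eq _ _).symm

theorem upoly_nv {S : α → List ER.Con} (hS : Poly S) : UPoly (fun a => nv (S a)) :=
  UPoly.add (UPoly.length (H78TSV.poly_svars hS)) (UPoly.const 1)

theorem poly_raw0 {S : α → List ER.Con} (hS : Poly S) : Poly (fun a => raw0 (S a)) :=
  Poly.flatMap (F := fun a c => sq (svars (S a)) c) hS
    (poly_sq ((H78TSV.poly_svars hS).comp (Poly.fst Poly.id)) (Poly.snd Poly.id))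

theorem poly_count {l : α → List ℕ} {t : α → ℕ} (hl : Poly l) (ht : Poly t) :
    Poly (fun a => (l a).count (t a)) := by
  have h : Poly (fun a => ((l a).filter fun i => decide (i = t a)).length) :=
    Poly.length (Poly.filter (p := fun a i => decide (i = t a)) hl
      (Poly.decide_eq (Poly.snd Poly.id) (ht.comp (Poly.fst Poly.id))))
  refine h.congr fun a => ?_
  rw [List.count_eq_length_filter]
  congr 1

theorem poly_expo {n : α → ℕ} {l : α → List ℕ} (hn : UPoly n) (hl : Poly l) :
    Poly (fun a => expo (n a) (l a)) :=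
  Poly.map (F := fun a t => (l a).count t) hn.range
    (poly_count (hl.comp (Poly.fst Poly.id)) (Poly.snd Poly.id))

theorem poly_toE {n : α → ℕ} {R : α → List RT} (hn : UPoly n) (hR : Poly R) :
    Poly (fun a => toE (n a) (R a)) := by
  refine Poly.map (F := fun a (t : RT) => ((t.1, t.2.1, expo (n a) t.2.2) : RT)) hR ?_
  have h2 : Poly (fun p : α × RT => p.2) := Poly.snd Poly.id
  exact Poly.pair (Poly.fst h2) (Poly.pair (Poly.fst (Poly.snd h2))
    (poly_expo (hn.comp (Poly.fst Poly.id)) (Poly.snd (Poly.snd h2))))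

theorem poly_coef {R : α → List RT} {m : α → List ℕ} (hR : Poly R) (hm : Poly m) :
    Poly (fun a => coef (R a) (m a)) := by
  have hf : Poly (fun a => (R a).filter fun t => decide (t.2.2 = m a)) :=
    Poly.filter (p := fun a (t : RT) => decide (t.2.2 = m a)) hR
      (Poly.decide_eq (Poly.snd (Poly.snd (Poly.snd Poly.id))) (hm.comp (Poly.fst Poly.id)))
  exact H532.Poly_subZ
    (H532.Poly_ofNat (Poly.sum (Poly.map (F := fun _ (t : RT) => t.1) hf
      (Poly.fst (Poly.snd Poly.id)))))
    (H532.Poly_ofNat (Poly.sum (Poly.map (F := fun _ (t : RT) => t.2.1) hf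
      (Poly.fst (Poly.snd (Poly.snd Poly.id))))))

theorem poly_canon {R : α → List RT} (hR : Poly R) : Poly (fun a => canon (R a)) := by
  have h1 : Poly (fun a => ((R a).map fun t => t.2.2).dedup) :=
    Pool.Agent.R544.poly_dedup (Poly.map (F := fun _ (t : RT) => t.2.2) hR
      (Poly.snd (Poly.snd (Poly.snd Poly.id))))
  have h2 : Poly (fun a => (((R a).map fun t => t.2.2).dedup).map fun m => (coef (R a) m, m)) :=
    Poly.map (F := fun a m => (coef (R a) m, m)) h1
      (Poly.pair (poly_coef (hR.comp (Poly.fst Poly.id)) (Poly.snd Poly.id)) (Poly.snd Poly.id))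
  exact Poly.filter (p := fun _ (t : ℤ × List ℕ) => !decide (t.1 = 0)) h2
    (Poly.not (Poly.decide_eq (Poly.fst (Poly.snd Poly.id)) (Poly.const 0)))

theorem poly_inst0 : Poly inst0 := by
  have h1 : UPoly nv := upoly_nv (α := List ER.Con) Poly.id
  exact Poly.pair h1.toPoly (Poly.pair (Poly.const _) (poly_canon (poly_toE h1
    (poly_raw0 Poly.id))))

theorem poly_inst4 : Poly inst4 := by
  have h1 : UPoly nv := upoly_nv (α := List ER.Con) Poly.id
  refine Poly.pair h1.toPoly (Poly.pair ?_ (poly_canon (poly_toE h1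
    (Poly.cons (Poly.const t0) (poly_raw0 Poly.id)))))
  exact Poly.cons (Poly.pair (Poly.const (1 : ℤ)) (poly_expo h1 (Poly.const _))) (Poly.const _)

end

/-- Affine polynomial projection is `∃ℝ`-hard. -/
theorem hard : ERHard (lang AffineProjection) := ERHard.of_sys poly_inst4 ap4_iff

/-- Affine polynomial projection with `f = 0` is `∃ℝ`-hard. -/
theorem hard_zero : ERHard (lang AffineProjectionZero) := ERHard.of_sys poly_inst0 zero_iff

/-- Affine polynomial projection with `f = x₀⁴` is `∃ℝ`-hard. -/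
theorem hard_quartic : ERHard (lang AffineProjectionQuartic) := ERHard.of_sys poly_inst4 quartic_iff

end Pool.Agent.NPC.N586AP
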